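import Pool.Agent.H148N.CoreS
import Pool.Agent.Y213.CB.Fin

set_option autoImplicit false

/-! Families of closed subvarieties of `E ^ r`, members with adelic points over extensions of bounded
degree in the closure of the group of global points, closed subsets of the parameter space of
dimension at most `e`. -/

namespace Pool.Agent.H148S

open MvPolynomial NumberField Pool.Agent.H901R3.MS WeierstrassCurve IsDedekindDomain
open Pool.Agent.Y213.EC Pool.Agent.TH954 Pool.Agent.TH942 Pool.Agent.Y213.BD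
open Pool.Agent.Y213.CB
open Pool.Agent.H148N (ModPS DimDegLE homog_vars)

open scoped LinearAlgebra.Projectivization

open scoped Classical in
theorem coreC (K : Type) [Field K] [NumberField K] (N : ℕ) (ω : Module.Basis (Fin N) ℤ (𝓞 K))
    (r n q M : ℕ) (a b : 𝓞 K) (hd : Disc (a : K) (b : K)) (G : Fin q → Pol (𝓞 K) r n)
    (d : Fin q → Fin r → ℕ) (hG : ∀ e, MHomog (G e) (d e)) (t D : ℕ) (ht : 1 ≤ t)
    (hns : ModPS a b G M t D) (p₂ : ℕ) (ε : ℝ) (hε : 0 < ε) :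
    ∃ H₀ : ℕ, 3 ≤ H₀ ∧ ∀ H : ℕ, H₀ ≤ H →
      ∃ FF : Finset ((J : Finset (Fin n)) → MvPolynomial (Fin n) K),
      (FF.card : ℝ) ≤ (H : ℝ) ^ ε ∧
      (∀ f ∈ FF, ∀ J : Finset (Fin n), J.card = t →
        f J ≠ 0 ∧ (f J).support ⊆ Finset.finsuppAntidiag J D) ∧
      ∀ c : Fin n × Fin N → ℤ, (∀ i, |c i| ≤ H) →
        Hyp a b G M p₂ (W659.SA.vec ω c) →
        ∃ f ∈ FF, ∀ J : Finset (Fin n), J.card = t →
          eval (fun i => ((W659.SA.vec ω c i : 𝓞 K) : K)) (f J) = 0 := by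
  classical
  have hFG : AddGroup.FG (Pt (a : K) (b : K)) := t_M1K K (a : K) (b : K) hd
  obtain ⟨R₀, hR⟩ := t_M2 (Pt (a : K) (b : K)) hFG
  have hdet := fun J : Finset (Fin n) => Pool.Agent.W305.SA.DET.main K N ω n
    (Finset.finsuppAntidiag J D)
  choose C₀ hC1 hC using hdet
  set C : ℕ := ∑ J, C₀ J with hCdef
  have hCJ : ∀ J, C₀ J ≤ C := fun J =>
    Finset.single_le_sum (f := C₀) (fun _ _ => Nat.zero_le _) (Finset.mem_univ J)
  obtain ⟨H₀, hH₀, hmain⟩ := primesE K a b hd (D + p₂) (R₀ * r) C ε hε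
  refine ⟨H₀, hH₀, fun H hH => ?_⟩
  obtain ⟨T, L, hL, hT, hprod, hLR⟩ := hmain H hH
  obtain ⟨A, hAc, hAr⟩ := hR L hL
  choose κ₀ hκ₀ δ₀ hδ₀ using hAr
  have key : ∀ (κ : Fin r → A) (J : Finset (Fin n)), ∃ f : MvPolynomial (Fin n) K, J.card = t →
      (f ≠ 0 ∧ f.support ⊆ Finset.finsuppAntidiag J D) ∧
      ∀ c : Fin n × Fin N → ℤ, (∀ i, |c i| ≤ H) →
        (∃ s : Fin r → Pt (a : K) (b : K), RdnT a b G M T (W659.SA.vec ω c) s ∧
          ∀ i, κ i = ⟨κ₀ (s i), hκ₀ (s i)⟩) →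
        eval (fun i => ((W659.SA.vec ω c i : 𝓞 K) : K)) f = 0 := by
    intro κ J
    by_cases hJ : J.card = t
    swap
    · exact ⟨0, fun h => absurd h hJ⟩
    obtain ⟨f, hf0, hfΛ, hf⟩ := hC J H T (fun p hp => by
        obtain ⟨_, hF, _⟩ := hT p hp
        exact hF.out) (lt_of_le_of_lt (by
          have h1 := hCJ J
          have h2 : 1 ≤ C * (H + 1) := Nat.mul_pos ((hC1 J).trans h1) (Nat.succ_pos _)
          calc (C₀ J * (H + 1)) ^ C₀ J ≤ (C * (H + 1)) ^ C₀ J :=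
                Nat.pow_le_pow_left (Nat.mul_le_mul_right _ h1) _
            _ ≤ (C * (H + 1)) ^ C := Nat.pow_le_pow_right h2 h1) hprod)
      {c | (∀ i, |c i| ≤ H) ∧ ∃ s : Fin r → Pt (a : K) (b : K), RdnT a b G M T (W659.SA.vec ω c) s ∧
          ∀ i, κ i = ⟨κ₀ (s i), hκ₀ (s i)⟩}
      (fun c hc => hc.1) (by
        intro p hp
        obtain ⟨hp1, hF, φ, hdφ, hkill⟩ := hT p hp
        haveI := hF
        haveI : CharP (AlgebraicClosure (ZMod p)) p :=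
          charP_of_injective_ringHom (cc p).injective p
        obtain ⟨S, hS⟩ := red_classC K (m := M) a b G L (fun i => (κ i).1) p φ hdφ hkill
        obtain ⟨g, hg0, hgs, hg⟩ := hns p (by omega) ((cc p).comp φ) S J hJ
        refine ⟨AlgebraicClosure (ZMod p), inferInstance, inferInstance, (cc p).comp φ, g, hg0,
          hgs, ?_⟩
        rintro c ⟨_, s, hs, hκ⟩
        refine hg _ (hS (W659.SA.vec ω c) s (hs p hp φ)
          fun i => ⟨δ₀ (s i), ?_⟩)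
        rw [hκ i]
        exact hδ₀ (s i))
    exact ⟨f, fun _ => ⟨⟨hf0, hfΛ⟩, fun c hc h => hf c ⟨hc, h⟩⟩⟩
  choose f hf using key
  refine ⟨Finset.univ.image f, ?_, ?_, ?_⟩
  · refine le_trans ?_ hLR
    have hQ : Fintype.card (Fin r → A) ≤ L ^ (R₀ * r) := by
      rw [Fintype.card_fun, Fintype.card_fin, Fintype.card_coe, pow_mul]
      exact Nat.pow_le_pow_left hAc r
    have h1 : (Finset.univ.image f).card ≤ L ^ (R₀ * r) := (Finset.card_image_le).trans hQ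
    exact_mod_cast h1
  · intro g hg J hJ
    rw [Finset.mem_image] at hg
    obtain ⟨x, _, rfl⟩ := hg
    exact (hf x J hJ).1
  · intro c hc hdeg
    obtain ⟨s, hs⟩ := hdeg T (fun p hp => by
      have h1 := (hT p hp).1
      omega)
    exact ⟨f (fun i => ⟨κ₀ (s i), hκ₀ (s i)⟩), Finset.mem_image_of_mem _ (Finset.mem_univ _),
      fun J hJ => (hf _ J hJ).2 c hc ⟨s, hs, fun i => rfl⟩⟩

theorem partC (K : Type) [Field K] [NumberField K] (r n q M₀ : ℕ) (a b : 𝓞 K)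
    (hd : 4 * a ^ 3 + 27 * b ^ 2 ≠ 0) (G : Fin q → Pol (𝓞 K) r (n + 1))
    (d : Fin q → Fin r → ℕ) (kk : Fin q → ℕ) (hG : ∀ e, MHomog (G e) (d e))
    (hX : ∀ e, XHomog (G e) (kk e)) (e D : ℕ) (hns : ∀ M < M₀, ModPS a b G M (e + 2) D)
    (S : Finset ℕ) (hS : ∀ p ∈ S, p.Prime) (ε : ℝ) (hε : 0 < ε) :
    ∃ C : ℝ, 0 ≤ C ∧ ∀ B : ℝ, 1 ≤ B → ∃ 𝒵 : Finset (Set (ℙ K (Fin (n + 1) → K))),
      (𝒵.card : ℝ) ≤ C * B ^ ε ∧ (∀ Z ∈ 𝒵, DimDegLE e D Z) ∧
      ∀ y : ℙ K (Fin (n + 1) → K), y.mulHeight ≤ B → (∃ M < M₀, ClPt a b G M S y.rep) →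
        ∃ Z ∈ 𝒵, y ∈ Z := by
  classical
  have hdK := Pool.Agent.Y213.BD.disc_ne hd
  have hSp : ∀ p ∈ S, p < ∑ p ∈ S, p + 1 := fun p hp => by
    have h1 : p ≤ ∑ p ∈ S, p := Finset.single_le_sum (f := fun p => p)
      (fun _ _ => Nat.zero_le _) hp
    omega
  obtain ⟨N, ω, C, hC0, hC⟩ := reduce K (n + 1)
  set ε' : ℝ := ε / (((n + 1 : ℕ) : ℝ) + 1) with hε'
  have hε'0 : 0 < ε' := by positivity
  have hcore : ∀ m : Fin M₀, _ := fun m => coreC K N ω r (n + 1) q m.1 a b hdK G d hG (e + 2) D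
    (by omega) (hns m.1 m.2) (∑ p ∈ S, p + 1) ε' hε'0
  choose H₀ hH₀ hmain using hcore
  set H₁ : ℕ := Finset.univ.sup H₀ with hH₁
  refine ⟨M₀ * (C + 1 + H₁) ^ ε', by positivity, fun B hB => ?_⟩
  set H : ℕ := ⌈C * B ^ (n + 1 + 1)⌉₊ + H₁ with hH
  have hB' : (1 : ℝ) ≤ B ^ (n + 1 + 1) := one_le_pow₀ hB
  have hHle : (H : ℝ) ≤ (C + 1 + H₁) * B ^ (n + 1 + 1) := by
    have h1 := (Nat.ceil_lt_add_one (by positivity : 0 ≤ C * B ^ (n + 1 + 1))).le
    have h2 : (0 : ℝ) ≤ H₁ := Nat.cast_nonneg _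
    rw [hH]
    push_cast
    nlinarith
  have hHge : C * B ^ (n + 1 + 1) ≤ H := by
    rw [hH]
    push_cast
    have h1 := Nat.le_ceil (C * B ^ (n + 1 + 1))
    have h2 : (0 : ℝ) ≤ H₁ := Nat.cast_nonneg _
    linarith
  have hex : ∀ m : Fin M₀, _ := fun m => hmain m H
    ((Finset.le_sup (f := H₀) (Finset.mem_univ m)).trans (by omega))
  choose FF hFF1 hFF2 hFF3 using hex
  refine ⟨(Finset.univ.biUnion FF).image fun f => {y | ∀ J : Finset (Fin (n + 1)),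
    J.card = e + 2 → eval y.rep (f J) = 0}, ?_, ?_, ?_⟩
  · have h0 : ((((Finset.univ.biUnion FF).image fun f => {y : ℙ K (Fin (n + 1) → K) |
        ∀ J : Finset (Fin (n + 1)), J.card = e + 2 → eval y.rep (f J) = 0}).card : ℕ) : ℝ) ≤
        ((Finset.univ.biUnion FF).card : ℕ) := by
      exact_mod_cast Finset.card_image_le
    refine h0.trans ?_
    have h1 : (((Finset.univ.biUnion FF).card : ℕ) : ℝ) ≤ ∑ m, ((FF m).card : ℝ) := by
      exact_mod_cast Finset.card_biUnion_le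
    refine h1.trans ((Finset.sum_le_sum fun m _ => hFF1 m).trans ?_)
    rw [Finset.sum_const, Finset.card_univ, Fintype.card_fin, nsmul_eq_mul, mul_assoc]
    exact mul_le_mul_of_nonneg_left (rpow_bound (n + 1) C B ε hC0 hB hε H₁ H hHle)
      (Nat.cast_nonneg _)
  · intro Z hZ J hJ
    obtain ⟨f, hf, rfl⟩ := Finset.mem_image.1 hZ
    rw [Finset.mem_biUnion] at hf
    obtain ⟨m, _, hf⟩ := hf
    obtain ⟨h1, h2⟩ := hFF2 m f hf J hJ
    exact ⟨f J, h1, (homog_vars h2).1, (homog_vars h2).2, fun y hy => hy J hJ⟩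
  · rintro y hyB ⟨m, hm, hy⟩
    obtain ⟨c, u, hu, hcu, hcB⟩ := hC B y hyB
    obtain ⟨f, hf, hf0⟩ := hFF3 ⟨m, hm⟩ c (by
      intro i
      have h1 : |(c i : ℝ)| ≤ H := (hcB i).trans hHge
      exact_mod_cast h1) (hyp_of_cl a b hd G d hG m S hS (∑ p ∈ S, p + 1) (by omega)
        hSp _ (by
        simp only [hcu]
        exact clPt_smul a b G kk hX S y.rep u hy))
    refine ⟨_, Finset.mem_image_of_mem _ (Finset.mem_biUnion.2 ⟨_, Finset.mem_univ _, hf⟩),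
      fun J hJ => ?_⟩
    have h1 : (fun i => ((W659.SA.vec ω c i : 𝓞 K) : K)) = u • y.rep := by
      funext i
      rw [hcu i]
      rfl
    have h3 := hf0 J hJ
    rw [h1, eval_smul (f J) (homog_vars (hFF2 ⟨m, hm⟩ f hf J hJ).2).1] at h3
    rcases mul_eq_zero.1 h3 with h2 | h2
    · exact absurd h2 (pow_ne_zero _ hu)
    · exact h2

end Pool.Agent.H148S
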