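import Pool.Agent.H148S.Core
import Pool.Agent.H148N.Fin
import Pool.Agent.Y213.CT.All

set_option autoImplicit false

/-! Families of closed subvarieties of `E ^ r` over `ℙ ^ n`, sections over extensions of bounded
degree: the definitions and the main theorem. -/

namespace Pool.Agent.H148S

open MvPolynomial NumberField IsDedekindDomain Pool.Agent.TH954 Pool.Agent.W620.SC
open Pool.Agent.H148N (curve coords MultiHomog Sums DimLE DimDegLE aff ModPS)

open scoped LinearAlgebra.Projectivization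

/-- the equations `G_l(V; y) = 0`, over the extension `F` of `K`, of the member `X_y`, for a
`K`-rational point `y` of `ℙ ^ n`; here `K` is an extension of `k` -/
noncomputable def MemberOver {k K : Type} [Field k] [Field K] [Algebra k K] {r n q : ℕ}
    (G : Fin q → MvPolynomial ((Fin r × Fin 3) ⊕ Fin (n + 1)) (𝓞 k)) (F : Type) [Field F]
    [Algebra K F] (y : ℙ K (Fin (n + 1) → K)) : Set (MvPolynomial (Fin r × Fin 3) F) :=
  Set.range fun l => eval₂ (C.comp (((algebraMap K F).comp (algebraMap k K)).comp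
    (algebraMap (𝓞 k) k))) (Sum.elim X (fun i => C (algebraMap K F (y.rep i)))) (G l)

/-- there are an extension `F` of `K` of degree at most `M`, a function field `L` over `F` with a
map `P` of its curve `C` to the member `X_y` which is regular at the points of `C` and a section of
the map from `Gal(N/L)` to the absolute Galois group of `F`, with `N` containing the maximal
extension of `L` unramified over the valuation rings `O ∈ U` of the points of `C`, such that the
section is given by a point (or a cusp) over `F_w` for all finite places `w` of `F` -/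
def HasSection {k K : Type} [Field k] [Field K] [NumberField K] [Algebra k K] (a b : 𝓞 k)
    {r n q : ℕ} (G : Fin q → MvPolynomial ((Fin r × Fin 3) ⊕ Fin (n + 1)) (𝓞 k)) (M : ℕ)
    (y : ℙ K (Fin (n + 1) → K)) : Prop :=
  ∃ (F : Type) (_ : Field F) (_ : NumberField F) (_ : Algebra K F)
    (L Ω N A : Type) (_ : Field L) (_ : Field Ω) (_ : Field N) (_ : Field A) (_ : Algebra F L)
    (_ : Algebra L Ω) (_ : Algebra F Ω) (_ : Algebra L N) (_ : Algebra F N) (_ : Algebra F A)
    (_ : IsScalarTower F L Ω) (_ : IsScalarTower F L N) (_ : IsAlgClosure L Ω)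
    (_ : IsAlgClosure F A) (U : Set (ValuationSubring L)) (e : N →ₐ[L] Ω)
    (P : Fin r → ((curve (algebraMap K F (algebraMap k K a))
      (algebraMap K F (algebraMap k K b))).baseChange L).toAffine.Point)
    (s : GalSection F L N A),
    Module.finrank K F ≤ M ∧ (∀ O ∈ U, ∀ c : F, algebraMap F L c ∈ O) ∧
    unramified L Ω U ≤ e.fieldRange ∧ OnX (MemberOver G F y) (fun i => crd (P i)) ∧
    ∀ w : HeightOneSpectrum (𝓞 F),
      ∃ p : Plc F N (AlgebraicClosure (w.adicCompletion F)), s.GivenBy (w.adicCompletion F) p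

open Pool.Agent.Y213.EC Pool.Agent.H901R3.MS Pool.Agent.Y213.BD in
theorem hyp_all (k : Type) [Field k] [NumberField k] (σ : k →+* ℂ) (a b : 𝓞 k)
    (hE : 4 * a ^ 3 + 27 * b ^ 2 ≠ 0) (r n q : ℕ)
    (G : Fin q → MvPolynomial ((Fin r × Fin 3) ⊕ Fin (n + 1)) (𝓞 k))
    (d : Fin q → Fin r → ℕ) (deg : Fin q → ℕ) (hG : ∀ l, MultiHomog (G l) (d l) (deg l))
    (M e : ℕ)
    (hX : ∀ m, 1 ≤ m → m ≤ M → ∀ S, DimLE e (Sums σ a b G m S)) :
    ∃ D : ℕ, 1 ≤ D ∧ ∀ m < M, ModPS a b G m (e + 2) D := by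
  classical
  have hdk : Disc (a : k) (b : k) := Pool.Agent.Y213.BD.disc_ne hE
  have hMH : ∀ l, MHomog (G l) (d l) := fun l x hx => (hG l x hx).1
  have hXH : ∀ l, XHomog (G l) (deg l) := fun l x hx => (hG l x hx).2
  exact Pool.Agent.H148N.transferSAll k r (n + 1) q a b G d hMH σ
    (Pool.Agent.Y213.BD.disc_of σ hdk) (e + 2) (by omega) M (by
      intro m hm S J hJ
      obtain ⟨D, hD⟩ := hX (m + 1) (by omega) (by omega) S
      obtain ⟨f, hf0, hfh, hfv, hf⟩ := hD J hJ
      refine ⟨D, f, hf0, Pool.Agent.H148N.supp_of_homog_vars hfh hfv, fun x hx hx0 => ?_⟩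
      obtain ⟨u, hu⟩ := Projectivization.exists_smul_eq_mk_rep ℂ x hx0
      have h1 : (Projectivization.mk ℂ x hx0).rep = (u : ℂ) • x := hu.symm
      have h2 := hf (Projectivization.mk ℂ x hx0) (by
        obtain ⟨P, h3, h4⟩ := ys_smul a b G deg hXH (toC σ) S x u hx
        refine ⟨P, fun j l => ?_, h4⟩
        have h5 := h3 j l
        rw [← h1] at h5
        unfold vl at h5
        rw [← h5]
        congr 1
        funext ij
        rcases ij with ij | i
        · exact congrFun (Pool.Agent.H148N.coords_eq (P j ij.1)) ij.2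
        · rfl)
      rw [h1, eval_smul f hfh] at h2
      exact (mul_eq_zero.1 h2).resolve_left (pow_ne_zero _ u.ne_zero))

open Pool.Agent.Y213.EC Pool.Agent.H901R3.MS in
theorem fin_main (k : Type) [Field k] [NumberField k] (σ : k →+* ℂ) (a b : 𝓞 k)
    (hE : 4 * a ^ 3 + 27 * b ^ 2 ≠ 0) (r n q : ℕ)
    (G : Fin q → MvPolynomial ((Fin r × Fin 3) ⊕ Fin (n + 1)) (𝓞 k))
    (d : Fin q → Fin r → ℕ) (deg : Fin q → ℕ) (hG : ∀ l, MultiHomog (G l) (d l) (deg l))
    (M e : ℕ)
    (hX : ∀ m, 1 ≤ m → m ≤ M → ∀ S, DimLE e (Sums σ a b G m S)) :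
    ∃ D : ℕ, ∀ (K : Type) [Field K] [NumberField K] [Algebra k K] (M₀ : ℕ), 1 ≤ M₀ →
      ShaKilledBy (curve (algebraMap k K a) (algebraMap k K b)) M₀ → ∀ ε : ℝ, 0 < ε →
      ∃ C : ℝ, ∀ B : ℝ, 1 ≤ B →
        (∃ 𝒵 : Finset (Set (ℙ K (Fin (n + 1) → K))), (𝒵.card : ℝ) ≤ C * B ^ ε ∧
          (∀ Z ∈ 𝒵, DimDegLE e D Z) ∧
          ∀ y : ℙ K (Fin (n + 1) → K), y.mulHeight ≤ B → HasSection a b G M y → ∃ Z ∈ 𝒵, y ∈ Z) ∧
        ∀ S : Finset K, S.Nonempty →
          ({t : Fin n → K | (∀ i, t i ∈ S) ∧ (aff t).mulHeight ≤ B ∧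
            HasSection a b G M (aff t)}.ncard : ℝ) ≤ C * B ^ ε * (S.card : ℝ) ^ e := by
  classical
  have hMH : ∀ l, MHomog (G l) (d l) := fun l x hx => (hG l x hx).1
  have hXH : ∀ l, XHomog (G l) (deg l) := fun l x hx => (hG l x hx).2
  obtain ⟨D, hD1, hD⟩ := hyp_all k σ a b hE r n q G d deg hG M e hX
  refine ⟨D, fun K _ _ _ M₀ hM1 hM ε hε => ?_⟩
  have hinj : Function.Injective (algebraMap (𝓞 k) (𝓞 K)) :=
    FaithfulSMul.algebraMap_injective (𝓞 k) (𝓞 K)
  set a' : 𝓞 K := algebraMap (𝓞 k) (𝓞 K) a with ha'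
  set b' : 𝓞 K := algebraMap (𝓞 k) (𝓞 K) b with hb'
  set G' : Fin q → Pol (𝓞 K) r (n + 1) :=
    fun l => MvPolynomial.map (algebraMap (𝓞 k) (𝓞 K)) (G l) with hG'
  have hE' : 4 * a' ^ 3 + 27 * b' ^ 2 ≠ 0 := by
    intro h0
    apply hE
    apply hinj
    rw [map_zero, ← h0, ha', hb']
    simp only [map_add, map_mul, map_pow, map_ofNat]
  have hMH' : ∀ l, MHomog (G' l) (d l) := fun l x hx =>
    hMH l x (MvPolynomial.support_map_subset _ _ hx)
  have hXH' : ∀ l, XHomog (G' l) (deg l) := fun l x hx =>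
    hXH l x (MvPolynomial.support_map_subset _ _ hx)
  obtain ⟨C, hC0, hC⟩ := partS K r n q M a' b' hE' G' d deg hMH' hXH' e D
    (fun m hm => Pool.Agent.H148N.base_change a b G m (e + 2) D (hD m hm)) ε hε
  obtain ⟨C', hC'⟩ := Pool.Agent.H148N.grid_bound K n e D
  have hdeg : ∀ y : ℙ K (Fin (n + 1) → K), HasSection a b G M y →
      ∃ m < M, Pool.Agent.Y213.CT.HL a' b' G' m y.rep := by
    rintro y ⟨F, _, _, _, L, Ω, N, A, _, _, _, _, _, _, _, _, _, _, _, _, _, _, U, e, P, s, hle, hU,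
      he, hPS, hloc⟩
    haveI : Module.Finite K F := Module.Finite.of_restrictScalars_finite ℚ K F
    have hpos : 0 < Module.finrank K F := Module.finrank_pos
    choose p hp using hloc
    have hmem : MemberOver G F y = Pool.Agent.Y213.CB.mbrF G' F y.rep := by
      unfold MemberOver Pool.Agent.Y213.CB.mbrF
      congr 1
      funext l
      rw [hG']
      simp only
      rw [eval₂_map]
      rfl
    rw [hmem] at hPS
    refine ⟨Module.finrank K F - 1, by omega, ?_⟩
    exact Pool.Agent.Y213.CT.hl_of_section Pool.Agent.Y213.CT.tEmb Pool.Agent.Y213.CT.tGal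
      Pool.Agent.Y213.CT.tUni Pool.Agent.Y213.CT.tPlc a' b' hE' G' d deg
      hMH' hXH' hM1 hM (Module.finrank K F - 1) y.rep F (by omega) U hU e he P hPS s p hp
  refine ⟨max C (C * C'), fun B hB => ?_⟩
  obtain ⟨𝒵, h1, h2, h3⟩ := hC B hB
  have hB0 : 0 ≤ B ^ ε := Real.rpow_nonneg (by linarith) _
  refine ⟨⟨𝒵, h1.trans (mul_le_mul_of_nonneg_right (le_max_left _ _) hB0), h2,
    fun y hyB hy => h3 y hyB (hdeg y hy)⟩, fun S hS => ?_⟩
  have h4 := hC' 𝒵 h2 S hS {t : Fin n → K | (∀ i, t i ∈ S) ∧ (aff t).mulHeight ≤ B ∧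
    HasSection a b G M (aff t)} (fun t ht => ht.1) (fun t ht => h3 _ ht.2.1 (hdeg _ ht.2.2))
  have h5 : (({t : Fin n → K | (∀ i, t i ∈ S) ∧ (aff t).mulHeight ≤ B ∧
      HasSection a b G M (aff t)}.ncard : ℕ) : ℝ) ≤ (𝒵.card : ℝ) * (C' * (S.card : ℝ) ^ e) := by
    exact_mod_cast h4
  refine h5.trans ?_
  have h6 : (𝒵.card : ℝ) * (C' * (S.card : ℝ) ^ e) ≤ (C * B ^ ε) * (C' * (S.card : ℝ) ^ e) :=
    mul_le_mul_of_nonneg_right h1 (by positivity)
  refine h6.trans ?_
  have h7 : (C * B ^ ε) * (C' * (S.card : ℝ) ^ e) = (C * C') * (B ^ ε * (S.card : ℝ) ^ e) := by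
    ring
  rw [h7, mul_assoc (max C (C * C'))]
  exact mul_le_mul_of_nonneg_right (le_max_right _ _) (by positivity)

end Pool.Agent.H148S
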