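import Pool.Agent.H148S.CoreC
import Pool.Agent.H148S.Fin

set_option autoImplicit false

/-! Families of closed subvarieties of `E ^ r` over `ℙ ^ n`, closures of the Mordell-Weil groups over
extensions of bounded degree: the definitions and the main theorem. -/

namespace Pool.Agent.H148S

open MvPolynomial NumberField IsDedekindDomain Pool.Agent.TH954
open Pool.Agent.H148N (curve coords MultiHomog Sums DimLE DimDegLE aff ModPS)

open scoped LinearAlgebra.Projectivization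

/-- the finite places of `F` above the primes in `T` -/
def PlacesAbove (T : Finset ℕ) (F : Type) [Field F] [NumberField F] :
    Set (HeightOneSpectrum (𝓞 F)) :=
  {w | ∃ p ∈ T, ((p : ℕ) : 𝓞 F) ∈ w.asIdeal}

/-- for SOME extension `F` of `K` of degree at most `M`, some point of the product of the `X_y(F_w)`,
over all finite places `w` of `F` not above `T`, lies in the closure of the group of `F`-rational
points of `E ^ r` in the product of the `E ^ r (F_w)` -/
def Unobstructed {k K : Type} [Field k] [Field K] [NumberField K] [Algebra k K] (a b : 𝓞 k)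
    {r n q : ℕ} (G : Fin q → MvPolynomial ((Fin r × Fin 3) ⊕ Fin (n + 1)) (𝓞 k)) (T : Finset ℕ)
    (M : ℕ) (y : ℙ K (Fin (n + 1) → K)) : Prop :=
  ∃ (F : Type) (_ : Field F) (_ : NumberField F) (_ : Algebra K F), Module.finrank K F ≤ M ∧
    ∃ x ∈ adelicClosure (E := curve (algebraMap K F (algebraMap k K a))
      (algebraMap K F (algebraMap k K b))) (n := r) (PlacesAbove T F) Set.univ,
      ∀ w, OnX (MemberOver G F y) (fun i => crd (x w i))

open Pool.Agent.Y213.EC Pool.Agent.H901R3.MS in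
theorem closure_main (k : Type) [Field k] [NumberField k] (σ : k →+* ℂ) (a b : 𝓞 k)
    (hE : 4 * a ^ 3 + 27 * b ^ 2 ≠ 0) (r n q : ℕ)
    (G : Fin q → MvPolynomial ((Fin r × Fin 3) ⊕ Fin (n + 1)) (𝓞 k))
    (d : Fin q → Fin r → ℕ) (deg : Fin q → ℕ) (hG : ∀ l, MultiHomog (G l) (d l) (deg l))
    (M e : ℕ)
    (hX : ∀ m, 1 ≤ m → m ≤ M → ∀ S, DimLE e (Sums σ a b G m S)) :
    ∃ D : ℕ, ∀ (K : Type) [Field K] [NumberField K] [Algebra k K] (T : Finset ℕ),
      (∀ p ∈ T, p.Prime) → ∀ ε : ℝ, 0 < ε →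
      ∃ C : ℝ, ∀ B : ℝ, 1 ≤ B →
        (∃ 𝒵 : Finset (Set (ℙ K (Fin (n + 1) → K))), (𝒵.card : ℝ) ≤ C * B ^ ε ∧
          (∀ Z ∈ 𝒵, DimDegLE e D Z) ∧
          ∀ y : ℙ K (Fin (n + 1) → K), y.mulHeight ≤ B → Unobstructed a b G T M y → ∃ Z ∈ 𝒵, y ∈ Z) ∧
        ∀ S : Finset K, S.Nonempty →
          ({t : Fin n → K | (∀ i, t i ∈ S) ∧ (aff t).mulHeight ≤ B ∧
            Unobstructed a b G T M (aff t)}.ncard : ℝ) ≤ C * B ^ ε * (S.card : ℝ) ^ e := by
  classical
  have hMH : ∀ l, MHomog (G l) (d l) := fun l x hx => (hG l x hx).1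
  have hXH : ∀ l, XHomog (G l) (deg l) := fun l x hx => (hG l x hx).2
  obtain ⟨D, hD1, hD⟩ := hyp_all k σ a b hE r n q G d deg hG M e hX
  refine ⟨D, fun K _ _ _ T hT ε hε => ?_⟩
  have hinj : Function.Injective (algebraMap (𝓞 k) (𝓞 K)) :=
    FaithfulSMul.algebraMap_injective (𝓞 k) (𝓞 K)
  set a' : 𝓞 K := algebraMap (𝓞 k) (𝓞 K) a with ha'
  set b' : 𝓞 K := algebraMap (𝓞 k) (𝓞 K) b with hb'
  set G' : Fin q → Pol (𝓞 K) r (n + 1) :=
    fun l => MvPolynomial.map (algebraMap (𝓞 k) (𝓞 K)) (G l) with hG'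
  have hE' : 4 * a' ^ 3 + 27 * b' ^ 2 ≠ 0 := by
    intro h0
    apply hE
    apply hinj
    rw [map_zero, ← h0, ha', hb']
    simp only [map_add, map_mul, map_pow, map_ofNat]
  have hMH' : ∀ l, MHomog (G' l) (d l) := fun l x hx =>
    hMH l x (MvPolynomial.support_map_subset _ _ hx)
  have hXH' : ∀ l, XHomog (G' l) (deg l) := fun l x hx =>
    hXH l x (MvPolynomial.support_map_subset _ _ hx)
  obtain ⟨C, hC0, hC⟩ := partC K r n q M a' b' hE' G' d deg hMH' hXH' e D
    (fun m hm => Pool.Agent.H148N.base_change a b G m (e + 2) D (hD m hm)) T hT ε hε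
  obtain ⟨C', hC'⟩ := Pool.Agent.H148N.grid_bound K n e D
  have hdeg : ∀ y : ℙ K (Fin (n + 1) → K), Unobstructed a b G T M y →
      ∃ m < M, Pool.Agent.Y213.CB.ClPt a' b' G' m T y.rep := by
    rintro y ⟨F, hF1, hF2, hF3, hle, x, hx, hxy⟩
    haveI : Module.Finite K F := Module.Finite.of_restrictScalars_finite ℚ K F
    have hpos : 0 < Module.finrank K F := Module.finrank_pos
    have hmem : MemberOver G F y = Pool.Agent.Y213.CB.mbrF G' F y.rep := by
      unfold MemberOver Pool.Agent.Y213.CB.mbrF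
      congr 1
      funext l
      rw [hG']
      simp only
      rw [eval₂_map]
      rfl
    rw [hmem] at hxy
    exact ⟨Module.finrank K F - 1, by omega, F, hF1, hF2, hF3, by omega, x, hx, hxy⟩
  refine ⟨max C (C * C'), fun B hB => ?_⟩
  obtain ⟨𝒵, h1, h2, h3⟩ := hC B hB
  have hB0 : 0 ≤ B ^ ε := Real.rpow_nonneg (by linarith) _
  refine ⟨⟨𝒵, h1.trans (mul_le_mul_of_nonneg_right (le_max_left _ _) hB0), h2,
    fun y hyB hy => h3 y hyB (hdeg y hy)⟩, fun S hS => ?_⟩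
  have h4 := hC' 𝒵 h2 S hS {t : Fin n → K | (∀ i, t i ∈ S) ∧ (aff t).mulHeight ≤ B ∧
    Unobstructed a b G T M (aff t)} (fun t ht => ht.1) (fun t ht => h3 _ ht.2.1 (hdeg _ ht.2.2))
  have h5 : (({t : Fin n → K | (∀ i, t i ∈ S) ∧ (aff t).mulHeight ≤ B ∧
      Unobstructed a b G T M (aff t)}.ncard : ℕ) : ℝ) ≤ (𝒵.card : ℝ) * (C' * (S.card : ℝ) ^ e) := by
    exact_mod_cast h4
  refine h5.trans ?_
  have h6 : (𝒵.card : ℝ) * (C' * (S.card : ℝ) ^ e) ≤ (C * B ^ ε) * (C' * (S.card : ℝ) ^ e) :=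
    mul_le_mul_of_nonneg_right h1 (by positivity)
  refine h6.trans ?_
  have h7 : (C * B ^ ε) * (C' * (S.card : ℝ) ^ e) = (C * C') * (B ^ ε * (S.card : ℝ) ^ e) := by
    ring
  rw [h7, mul_assoc (max C (C * C'))]
  exact mul_le_mul_of_nonneg_right (le_max_right _ _) (by positivity)

end Pool.Agent.H148S
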