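import Pool.Agent.H148S.CoreL
import Pool.Agent.H148S.Fin

set_option autoImplicit false

/-! Families of closed subvarieties of `E ^ r` over `ℙ ^ n`, Selmer sets over extensions of bounded
degree: the definitions and the main theorem. -/

namespace Pool.Agent.H148S

open MvPolynomial NumberField IsDedekindDomain Pool.Agent.TH954
open Pool.Agent.H148N (curve coords MultiHomog Sums DimLE DimDegLE aff ModPS)

open scoped LinearAlgebra.Projectivization

open scoped Classical in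
/-- the `N`-Selmer set of the member `X_y` over the extension `F` of `K` (at the finite places),
described by cocycles: the `N`-coverings of `E ^ r` over `F` whose pull-backs to `X_y` have points
over the completions of `F` at all finite places -/
def Sel {k K : Type} [Field k] [Field K] [Algebra k K] (a b : 𝓞 k) {r n q : ℕ}
    (G : Fin q → MvPolynomial ((Fin r × Fin 3) ⊕ Fin (n + 1)) (𝓞 k)) (F : Type) [Field F]
    [NumberField F] [Algebra K F] (N : ℕ) (y : ℙ K (Fin (n + 1) → K)) :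
    Set (Fin r → (AlgebraicClosure F ≃ₐ[F] AlgebraicClosure F) →
      AlgPt (curve (algebraMap K F (algebraMap k K a)) (algebraMap K F (algebraMap k K b))) F) :=
  {ξ | (∀ i, IsCocycle (curve (algebraMap K F (algebraMap k K a))
      (algebraMap K F (algebraMap k K b))) (ξ i)) ∧
    (∀ i σ, N • ξ i σ = 0) ∧ ∀ w : HeightOneSpectrum (𝓞 F),
      CoverPoint (curve (algebraMap K F (algebraMap k K a)) (algebraMap K F (algebraMap k K b)))
        (MemberOver G F y) N ξ (w.adicCompletion F)}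

/-- for SOME extension `F` of `K` of degree at most `M` the `N`-Selmer set of `X_y` over `F` is not
empty -/
def HasSelmer {k K : Type} [Field k] [Field K] [Algebra k K] (a b : 𝓞 k) {r n q : ℕ}
    (G : Fin q → MvPolynomial ((Fin r × Fin 3) ⊕ Fin (n + 1)) (𝓞 k)) (M N : ℕ)
    (y : ℙ K (Fin (n + 1) → K)) : Prop :=
  ∃ (F : Type) (_ : Field F) (_ : NumberField F) (_ : Algebra K F), Module.finrank K F ≤ M ∧
    (Sel a b G F N y).Nonempty

open Pool.Agent.Y213.EC Pool.Agent.H901R3.MS in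
theorem selmer_main (k : Type) [Field k] [NumberField k] (σ : k →+* ℂ) (a b : 𝓞 k)
    (hE : 4 * a ^ 3 + 27 * b ^ 2 ≠ 0) (r n q : ℕ)
    (G : Fin q → MvPolynomial ((Fin r × Fin 3) ⊕ Fin (n + 1)) (𝓞 k))
    (d : Fin q → Fin r → ℕ) (deg : Fin q → ℕ) (hG : ∀ l, MultiHomog (G l) (d l) (deg l))
    (M e : ℕ)
    (hX : ∀ m, 1 ≤ m → m ≤ M → ∀ S, DimLE e (Sums σ a b G m S)) :
    ∃ D : ℕ, ∀ (K : Type) [Field K] [NumberField K] [Algebra k K] (M₀ : ℕ), 1 ≤ M₀ →
      ShaKilledBy (curve (algebraMap k K a) (algebraMap k K b)) M₀ → ∀ ε : ℝ, 0 < ε →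
      ∃ C : ℝ, ∀ B : ℝ, 1 ≤ B → ∃ N : ℕ, 1 ≤ N ∧ (N : ℝ) ≤ C * B ^ ε ∧
        (∃ 𝒵 : Finset (Set (ℙ K (Fin (n + 1) → K))), (𝒵.card : ℝ) ≤ C * B ^ ε ∧
          (∀ Z ∈ 𝒵, DimDegLE e D Z) ∧
          ∀ y : ℙ K (Fin (n + 1) → K), y.mulHeight ≤ B → HasSelmer a b G M N y → ∃ Z ∈ 𝒵, y ∈ Z) ∧
        ∀ S : Finset K, S.Nonempty →
          ({t : Fin n → K | (∀ i, t i ∈ S) ∧ (aff t).mulHeight ≤ B ∧
            HasSelmer a b G M N (aff t)}.ncard : ℝ) ≤ C * B ^ ε * (S.card : ℝ) ^ e := by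
  classical
  have hMH : ∀ l, MHomog (G l) (d l) := fun l x hx => (hG l x hx).1
  have hXH : ∀ l, XHomog (G l) (deg l) := fun l x hx => (hG l x hx).2
  obtain ⟨D, hD1, hD⟩ := hyp_all k σ a b hE r n q G d deg hG M e hX
  refine ⟨D, fun K _ _ _ M₀ hM1 hM ε hε => ?_⟩
  have hinj : Function.Injective (algebraMap (𝓞 k) (𝓞 K)) :=
    FaithfulSMul.algebraMap_injective (𝓞 k) (𝓞 K)
  set a' : 𝓞 K := algebraMap (𝓞 k) (𝓞 K) a with ha'
  set b' : 𝓞 K := algebraMap (𝓞 k) (𝓞 K) b with hb'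
  set G' : Fin q → Pol (𝓞 K) r (n + 1) :=
    fun l => MvPolynomial.map (algebraMap (𝓞 k) (𝓞 K)) (G l) with hG'
  have hE' : 4 * a' ^ 3 + 27 * b' ^ 2 ≠ 0 := by
    intro h0
    apply hE
    apply hinj
    rw [map_zero, ← h0, ha', hb']
    simp only [map_add, map_mul, map_pow, map_ofNat]
  have hMH' : ∀ l, MHomog (G' l) (d l) := fun l x hx =>
    hMH l x (MvPolynomial.support_map_subset _ _ hx)
  have hXH' : ∀ l, XHomog (G' l) (deg l) := fun l x hx =>
    hXH l x (MvPolynomial.support_map_subset _ _ hx)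
  obtain ⟨C, hC0, hC⟩ := partL K r n q M a' b' hE' G' d hMH' e D
    (fun m hm => Pool.Agent.H148N.base_change a b G m (e + 2) D (hD m hm)) ε hε
  obtain ⟨C', hC'⟩ := Pool.Agent.H148N.grid_bound K n e D
  have hdeg : ∀ (L : ℕ) (y : ℙ K (Fin (n + 1) → K)), HasSelmer a b G M (M₀ * 2 * L) y →
      ∃ m < M, Pool.Agent.Y213.CT.HS a' b' G' m L y.rep := by
    rintro L y ⟨F, hF1, hF2, hF3, hle, ξ, h1, h2, h3⟩
    haveI : Module.Finite K F := Module.Finite.of_restrictScalars_finite ℚ K F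
    have hpos : 0 < Module.finrank K F := Module.finrank_pos
    have hmem : MemberOver G F y = Pool.Agent.Y213.CB.mbrF G' F y.rep := by
      unfold MemberOver Pool.Agent.Y213.CB.mbrF
      congr 1
      funext l
      rw [hG']
      simp only
      rw [eval₂_map]
      rfl
    rw [hmem] at h3
    exact ⟨Module.finrank K F - 1, by omega,
      Pool.Agent.Y213.CT.hs_of_cover Pool.Agent.Y213.CT.tEmb Pool.Agent.Y213.CT.tGal
        Pool.Agent.Y213.CT.tUni Pool.Agent.Y213.CT.tPlc a' b' (Pool.Agent.Y213.BD.disc_ne hE')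
        G' d deg hMH' hXH' hM F (by omega) y.rep L ξ h1 h2 h3⟩
  have hM0 : (1 : ℝ) ≤ M₀ := by exact_mod_cast hM1
  have hC'0 : (0 : ℝ) ≤ C' := Nat.cast_nonneg _
  refine ⟨M₀ * 2 * C + C * C', fun B hB => ?_⟩
  obtain ⟨L, 𝒵, hL1, hL, h1, h2, h3⟩ := hC B hB
  have hB0 : 0 ≤ B ^ ε := Real.rpow_nonneg (by linarith) _
  have hCB : 0 ≤ C * B ^ ε := mul_nonneg hC0 hB0
  have hCC : 0 ≤ C * C' * B ^ ε := mul_nonneg (mul_nonneg hC0 hC'0) hB0
  have hMC : C * B ^ ε ≤ M₀ * 2 * (C * B ^ ε) := by nlinarith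
  have hexp : (M₀ * 2 * C + C * C') * B ^ ε = M₀ * 2 * (C * B ^ ε) + C * C' * B ^ ε := by ring
  refine ⟨M₀ * 2 * L, ?_, ?_, ⟨𝒵, ?_, h2, fun y hyB hy => h3 y hyB (hdeg L y hy)⟩, fun S hS => ?_⟩
  · have := Nat.mul_pos (Nat.mul_pos hM1 two_pos) hL1
    omega
  · push_cast
    rw [hexp]
    have h4 : (M₀ : ℝ) * 2 * L ≤ M₀ * 2 * (C * B ^ ε) :=
      mul_le_mul_of_nonneg_left hL (by positivity)
    linarith
  · rw [hexp]
    linarith
  have h4 := hC' 𝒵 h2 S hS {t : Fin n → K | (∀ i, t i ∈ S) ∧ (aff t).mulHeight ≤ B ∧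
    HasSelmer a b G M (M₀ * 2 * L) (aff t)} (fun t ht => ht.1)
    (fun t ht => h3 _ ht.2.1 (hdeg L _ ht.2.2))
  have h5 : (({t : Fin n → K | (∀ i, t i ∈ S) ∧ (aff t).mulHeight ≤ B ∧
      HasSelmer a b G M (M₀ * 2 * L) (aff t)}.ncard : ℕ) : ℝ) ≤
      (𝒵.card : ℝ) * (C' * (S.card : ℝ) ^ e) := by
    exact_mod_cast h4
  refine h5.trans ?_
  have h6 : (𝒵.card : ℝ) * (C' * (S.card : ℝ) ^ e) ≤ (C * B ^ ε) * (C' * (S.card : ℝ) ^ e) :=
    mul_le_mul_of_nonneg_right h1 (by positivity)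
  refine h6.trans ?_
  have h7 : (C * B ^ ε) * (C' * (S.card : ℝ) ^ e) = (C * C' * B ^ ε) * (S.card : ℝ) ^ e := by
    ring
  rw [h7, hexp]
  refine mul_le_mul_of_nonneg_right ?_ (by positivity)
  have : 0 ≤ (M₀ : ℝ) * 2 * (C * B ^ ε) := by positivity
  linarith

end Pool.Agent.H148S
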